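import Pool.Agent.H22.HD.Stmts

/-!
# Project HD, module VAR: the variance of the new function
-/

set_option autoImplicit false

open MeasureTheory ProbabilityTheory

namespace Pool.Agent.H3.HD

open Pool.Agent.H22.HD

/-- the elementary inequality for the cosine -/
theorem cos_le_aux (t : ℝ) (ht : |t| ≤ 1) : Real.cos t ≤ 1 - t ^ 2 / 4 := by
  have h := Real.cos_bound ht
  have h1 := (abs_le.1 h).2
  have h2 : |t| ^ 4 ≤ t ^ 2 := by
    have h3 : |t| ^ 4 = t ^ 2 * t ^ 2 := by
      rw [← sq_abs t]; ring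
    have h4 : t ^ 2 ≤ 1 := by
      rw [← sq_abs t]
      exact pow_le_one₀ (abs_nonneg _) ht
    rw [h3]
    nlinarith [sq_nonneg t]
  nlinarith [sq_nonneg t]

/-- the variance bound -/
theorem var_thm : VARStmt := by
  intro Ω _ μ _ f0 hm hb hsy hv m b β hb1 hmb hβ
  set v : ℝ := ∫ x, f0 x ^ 2 ∂μ with hvdef
  have hm0 : (0 : ℝ) < m := by nlinarith
  have hv0 : 0 < v := by linarith
  have hmv : 0 < m * v := mul_pos hm0 hv0
  have hβ0 : 0 < β := by
    rw [hβ]
    exact div_pos (by linarith) (Real.sqrt_pos.2 hmv)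
  have hβ2 : β ^ 2 * (m * v) = b ^ 2 := by
    rw [hβ, div_pow, Real.sq_sqrt hmv.le]
    field_simp
  have hβ4 : 4 * β ^ 2 ≤ 1 := by
    have h1 : β ^ 2 * (m * v) ≥ β ^ 2 * (4 * b ^ 2) := by
      apply mul_le_mul_of_nonneg_left _ (sq_nonneg _)
      nlinarith
    rw [hβ2] at h1
    have h2 : 0 < b ^ 2 := by positivity
    nlinarith
  have habs : ∀ x, |2 * β * f0 x| ≤ 1 := by
    intro x
    rw [abs_le]
    have h1 := abs_le.1 (hb x)
    have h2 : 2 * β ≤ 1 := by nlinarith
    constructor <;> nlinarith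
  -- integrability
  have hf2int : Integrable (fun x => f0 x ^ 2) μ := by
    refine Integrable.of_bound (hm.pow_const 2).aestronglyMeasurable 1 ?_
    filter_upwards with x
    rw [Real.norm_eq_abs, abs_pow]
    exact pow_le_one₀ (abs_nonneg _) (hb x)
  have hcosint : Integrable (fun x => Real.cos (2 * β * f0 x)) μ := by
    refine Integrable.of_bound
      (Real.measurable_cos.comp (hm.const_mul (2 * β))).aestronglyMeasurable 1 ?_
    filter_upwards with x
    exact Real.abs_cos_le_one _
  have hsinint : Integrable (fun x => Real.sin (2 * β * f0 x)) μ := by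
    refine Integrable.of_bound
      (Real.measurable_sin.comp (hm.const_mul (2 * β))).aestronglyMeasurable 1 ?_
    filter_upwards with x
    exact Real.abs_sin_le_one _
  -- the one factor
  set C : ℝ := ∫ x, Real.cos (2 * β * f0 x) ∂μ with hC
  have hsin0 : ∫ x, Real.sin (2 * β * f0 x) ∂μ = 0 := by
    refine hsy (fun y => Real.sin (2 * β * y)) (by fun_prop) ?_
    intro y
    simp [Real.sin_neg]
  have hC0 : 0 ≤ C := by
    apply integral_nonneg
    intro x
    have h1 := abs_le.1 (habs x)
    apply Real.cos_nonneg_of_mem_Icc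
    have hpi := Real.pi_gt_three
    constructor <;> linarith
  have hC1 : C ≤ 1 - β ^ 2 * v := by
    have h1 : C ≤ ∫ x, (1 - β ^ 2 * f0 x ^ 2) ∂μ := by
      apply integral_mono hcosint
      · exact (integrable_const _).sub (hf2int.const_mul _)
      · intro x
        have := cos_le_aux _ (habs x)
        simp only
        nlinarith
    rw [integral_sub (integrable_const _) (hf2int.const_mul _), integral_const_mul] at h1
    simpa using h1
  have hCm : C ^ m ≤ 1 / 2 := by
    have h1 : C ≤ Real.exp (-(β ^ 2 * v)) := by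
      have := Real.add_one_le_exp (-(β ^ 2 * v))
      linarith
    have h2 : C ^ m ≤ Real.exp (-(β ^ 2 * v)) ^ m := pow_le_pow_left₀ hC0 h1 m
    have h3 : Real.exp (-(β ^ 2 * v)) ^ m = Real.exp (-(b ^ 2)) := by
      rw [← Real.exp_nat_mul]
      congr 1
      rw [← hβ2]; ring
    rw [h3] at h2
    have h4 : Real.exp (-(b ^ 2)) ≤ Real.exp (-1) := Real.exp_le_exp.2 (by nlinarith)
    have h5 : Real.exp (-1) ≤ 1 / 2 := by
      rw [Real.exp_neg, inv_eq_one_div]
      apply one_div_le_one_div_of_le (by norm_num)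
      have := Real.add_one_le_exp (1 : ℝ)
      linarith
    linarith
  -- the complex factor
  have hone : ∫ x, Complex.exp (Complex.I * ((2 * β * f0 x : ℝ) : ℂ)) ∂μ = (C : ℂ) := by
    have h1 : ∀ x, Complex.exp (Complex.I * ((2 * β * f0 x : ℝ) : ℂ)) =
        ((Real.cos (2 * β * f0 x) : ℝ) : ℂ) + ((Real.sin (2 * β * f0 x) : ℝ) : ℂ) * Complex.I := by
      intro x
      rw [mul_comm, Complex.exp_mul_I, Complex.ofReal_cos, Complex.ofReal_sin]
    simp_rw [h1]
    rw [integral_add hcosint.ofReal (hsinint.ofReal.mul_const _), integral_mul_const]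
    have e1 : ∫ x, ((Real.cos (2 * β * f0 x) : ℝ) : ℂ) ∂μ = (C : ℂ) := integral_ofReal
    have e2 : ∫ x, ((Real.sin (2 * β * f0 x) : ℝ) : ℂ) ∂μ = ((0 : ℝ) : ℂ) := by
      rw [← hsin0]; exact integral_ofReal
    rw [e1, e2]
    simp
  have hprod : ∫ x : Fin m → Ω, Complex.exp (Complex.I * ((2 * (β * ∑ j, f0 (x j)) : ℝ) : ℂ))
      ∂(Measure.pi fun _ => μ) = (C : ℂ) ^ m := by
    have h1 : ∀ x : Fin m → Ω, Complex.exp (Complex.I * ((2 * (β * ∑ j, f0 (x j)) : ℝ) : ℂ)) =
        ∏ j, Complex.exp (Complex.I * ((2 * β * f0 (x j) : ℝ) : ℂ)) := by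
      intro x
      rw [← Complex.exp_sum, ← Finset.mul_sum]
      congr 2
      push_cast
      rw [← Finset.mul_sum]
      ring
    simp_rw [h1]
    rw [integral_fintype_prod_eq_pow (μ := μ)
      (fun x => Complex.exp (Complex.I * ((2 * β * f0 x : ℝ) : ℂ))), hone]
    simp
  have hmeasS : Measurable (fun x : Fin m → Ω => ∑ j, f0 (x j)) := by
    apply Finset.measurable_fun_sum
    intro j _
    exact hm.comp (measurable_pi_apply j)
  have hcosm : ∫ x : Fin m → Ω, Real.cos (2 * (β * ∑ j, f0 (x j)))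
      ∂(Measure.pi fun _ => μ) = C ^ m := by
    have h2 : ∫ x : Fin m → Ω, Real.cos (2 * (β * ∑ j, f0 (x j)))
        ∂(Measure.pi fun _ => μ) =
        (∫ x : Fin m → Ω, Complex.exp (Complex.I * ((2 * (β * ∑ j, f0 (x j)) : ℝ) : ℂ))
          ∂(Measure.pi fun _ => μ)).re := by
      have hint : Integrable (fun x : Fin m → Ω =>
          Complex.exp (Complex.I * ((2 * (β * ∑ j, f0 (x j)) : ℝ) : ℂ)))
          (Measure.pi fun _ => μ) := by
        refine Integrable.of_bound ?_ 1 ?_
        · apply Measurable.aestronglyMeasurable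
          exact Complex.measurable_exp.comp
            ((Complex.measurable_ofReal.comp ((hmeasS.const_mul β).const_mul 2)).const_mul
              Complex.I)
        · filter_upwards with x
          rw [mul_comm, Complex.norm_exp_ofReal_mul_I]
      have h3 : (∫ x : Fin m → Ω, Complex.exp (Complex.I * ((2 * (β * ∑ j, f0 (x j)) : ℝ) : ℂ))
          ∂(Measure.pi fun _ => μ)).re = ∫ x : Fin m → Ω,
          (Complex.exp (Complex.I * ((2 * (β * ∑ j, f0 (x j)) : ℝ) : ℂ))).re
          ∂(Measure.pi fun _ => μ) := by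
        have := integral_re (μ := (Measure.pi fun _ => μ)) hint
        simpa using this.symm
      rw [h3]
      congr 1
      ext x
      rw [mul_comm Complex.I, Complex.exp_ofReal_mul_I_re]
    rw [h2, hprod, ← Complex.ofReal_pow, Complex.ofReal_re]
  have hcosMint : Integrable (fun x : Fin m → Ω => Real.cos (2 * (β * ∑ j, f0 (x j))))
      (Measure.pi fun _ => μ) := by
    refine Integrable.of_bound
      (Real.measurable_cos.comp ((hmeasS.const_mul β).const_mul 2)).aestronglyMeasurable 1 ?_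
    filter_upwards with x
    exact Real.abs_cos_le_one _
  have hfin : ∫ x : Fin m → Ω, (Real.sin (β * ∑ j, f0 (x j))) ^ 2 ∂(Measure.pi fun _ => μ) =
      1 / 2 - C ^ m / 2 := by
    have h1 : ∀ x : Fin m → Ω, (Real.sin (β * ∑ j, f0 (x j))) ^ 2 =
        1 / 2 - Real.cos (2 * (β * ∑ j, f0 (x j))) / 2 := by
      intro x
      exact Real.sin_sq_eq_half_sub _
    simp_rw [h1]
    have h2 := integral_div (μ := (Measure.pi fun _ : Fin m => μ)) (2 : ℝ)
      (fun x : Fin m → Ω => Real.cos (2 * (β * ∑ j, f0 (x j))))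
    rw [integral_sub (integrable_const _) (hcosMint.div_const _), h2, hcosm]
    simp
  rw [hfin]
  linarith

end Pool.Agent.H3.HD
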